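import Pool.Agent.Helper95.LN.Stmts

/-! # Row FF (MP_56acfd_mp): the field of the far charges, mean value property -/

set_option autoImplicit false

namespace Pool.Agent.Helper76.LN

open MeasureTheory Filter Pool.Agent.Helper95.PW Pool.Agent.Helper95.LN

namespace FF76

theorem pd_smooth (i : Fin 3) (f : R3 → ℝ) (hf : ContDiff ℝ (⊤ : ℕ∞) f) :
    ContDiff ℝ (⊤ : ℕ∞) (pd i f) := by
  have h := (contDiff_infty_iff_fderiv.1 hf).2
  exact h.clm_apply contDiff_const

theorem pd_zero (d : ℝ) (i : Fin 3) (h : R3 → ℝ) (hh : ContDiff ℝ (⊤ : ℕ∞) h)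
    (h0 : ∀ y, d ≤ nr y → h y = 0) (y : R3) (hy : d ≤ nr y) : pd i h y = 0 := by
  have hd : HasFDerivAt h (fderiv ℝ h y) y := ((hh.differentiable (by simp)) y).hasFDerivAt
  have key : ∀ v : R3, (∀ t : ℝ, 0 ≤ t → nr y ≤ nr (y + t • v)) → fderiv ℝ h y v = 0 := by
    intro v hv
    have h1 : HasDerivAt (fun t : ℝ => h (y + t • v)) (fderiv ℝ h y v) 0 := hd.hasLineDerivAt v
    have h2 : HasDerivWithinAt (fun t : ℝ => h (y + t • v)) (fderiv ℝ h y v) (Set.Ici 0) 0 :=
      h1.hasDerivWithinAt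
    have h3 : HasDerivWithinAt (fun t : ℝ => h (y + t • v)) 0 (Set.Ici 0) 0 := by
      apply (hasDerivWithinAt_const (0 : ℝ) (Set.Ici (0 : ℝ)) (0 : ℝ)).congr
      · intro t ht
        exact h0 _ (hy.trans (hv t ht))
      · exact h0 _ (hy.trans (hv 0 le_rfl))
    exact (uniqueDiffWithinAt_Ici (0 : ℝ)).eq_deriv _ h2 h3
  unfold pd
  rcases le_total 0 (y i) with hi | hi
  · apply key
    intro t ht
    unfold nr
    apply Real.sqrt_le_sqrt
    fin_cases i <;> simp at hi ⊢ <;> nlinarith [mul_nonneg ht hi, sq_nonneg t]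
  · have h4 := key (-(Pi.single i 1)) (by
      intro t ht
      unfold nr
      apply Real.sqrt_le_sqrt
      fin_cases i <;> simp at hi ⊢ <;>
        nlinarith [mul_nonneg ht (neg_nonneg.2 hi), sq_nonneg t])
    rw [map_neg] at h4
    linarith

theorem nr_nonneg (y : R3) : 0 ≤ nr y := Real.sqrt_nonneg _

theorem nr_eq (y : R3) : nr y = ‖(WithLp.toLp 2 y : EuclideanSpace ℝ (Fin 3))‖ := by
  rw [EuclideanSpace.norm_eq, Fin.sum_univ_three]
  simp [nr, Real.norm_eq_abs, sq_abs]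

theorem nr_tri (x y z : R3) : nr (x - z) ≤ nr (x - y) + nr (y - z) := by
  rw [nr_eq, nr_eq, nr_eq]
  have h : (WithLp.toLp 2 (x - z) : EuclideanSpace ℝ (Fin 3)) =
      WithLp.toLp 2 (x - y) + WithLp.toLp 2 (y - z) := by
    rw [← WithLp.toLp_add]
    congr 1
    abel
  rw [h]
  exact norm_add_le _ _

theorem nr_comm (x y : R3) : nr (x - y) = nr (y - x) := by
  unfold nr
  congr 1
  simp only [Pi.sub_apply]
  ring

theorem norm_le_nr (y : R3) : ‖y‖ ≤ nr y := by
  rw [pi_norm_le_iff_of_nonneg (nr_nonneg y)]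
  intro i
  rw [Real.norm_eq_abs]
  unfold nr
  apply Real.abs_le_sqrt
  fin_cases i <;> simp <;> nlinarith [sq_nonneg (y 0), sq_nonneg (y 1), sq_nonneg (y 2)]

theorem nr_cont : Continuous nr := by
  unfold nr
  fun_prop

/-- combination of translates -/
noncomputable def comb {ι : Type} [Fintype ι] (f : R3 → ℝ) (c : ι → ℝ) (P : ι → R3)
    (w : R3) : ℝ := ∑ k, c k * f (w - P k)

theorem comb_smooth {ι : Type} [Fintype ι] (f : R3 → ℝ) (c : ι → ℝ) (P : ι → R3)
    (hf : ContDiff ℝ (⊤ : ℕ∞) f) : ContDiff ℝ (⊤ : ℕ∞) (comb f c P) := by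
  unfold comb
  apply ContDiff.sum
  intro k _
  exact contDiff_const.mul (hf.comp (contDiff_id.sub contDiff_const))

theorem comb_pd {ι : Type} [Fintype ι] (f : R3 → ℝ) (c : ι → ℝ) (P : ι → R3)
    (hf : ContDiff ℝ (⊤ : ℕ∞) f) (i : Fin 3) : pd i (comb f c P) = comb (pd i f) c P := by
  funext y
  unfold pd comb
  have hd : ∀ k, HasFDerivAt (fun y => c k * f (y - P k)) (c k • fderiv ℝ f (y - P k)) y := by
    intro k
    have h1 : DifferentiableAt ℝ f (y - P k) := (hf.differentiable (by simp)) _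
    have h2 := h1.hasFDerivAt.comp y ((hasFDerivAt_id y).sub_const (P k))
    rw [ContinuousLinearMap.comp_id] at h2
    exact h2.const_mul (c k)
  have hs : HasFDerivAt (fun y => ∑ k, c k * f (y - P k))
      (∑ k, c k • fderiv ℝ f (y - P k)) y :=
    HasFDerivAt.fun_sum (fun k _ => hd k)
  rw [hs.fderiv, sum_apply]
  rfl

theorem comb_lap {ι : Type} [Fintype ι] (f : R3 → ℝ) (c : ι → ℝ) (P : ι → R3)
    (hf : ContDiff ℝ (⊤ : ℕ∞) f) : lap (comb f c P) = comb (lap f) c P := by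
  funext y
  unfold lap
  have h : ∀ i, pd i (pd i (comb f c P)) y = ∑ k, c k * pd i (pd i f) (y - P k) := by
    intro i
    rw [comb_pd f c P hf i, comb_pd (pd i f) c P (pd_smooth i f hf) i]
    rfl
  rw [Finset.sum_congr rfl (fun i _ => h i), Finset.sum_comm]
  unfold comb
  apply Finset.sum_congr rfl
  intro k _
  rw [Finset.mul_sum]

theorem pd_comm (f : R3 → ℝ) (hf : ContDiff ℝ (⊤ : ℕ∞) f) (i l : Fin 3) :
    pd i (pd l f) = pd l (pd i f) := by
  funext x
  have hd : DifferentiableAt ℝ (fderiv ℝ f) x :=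
    ((hf.fderiv_right (m := (⊤ : ℕ∞)) (by norm_num)).differentiable (by norm_num)) x
  have h1 : ∀ (a b : R3), fderiv ℝ (fun y => fderiv ℝ f y a) x b = fderiv ℝ (fderiv ℝ f) x b a := by
    intro a b
    rw [fderiv_clm_apply hd (differentiableAt_const a)]
    simp
  have hs : IsSymmSndFDerivAt ℝ f x := by
    apply (hf.contDiffAt (x := x)).isSymmSndFDerivAt
    rw [minSmoothness_of_isRCLikeNormedField]
    exact WithTop.coe_le_coe.2 (le_top : (2 : ℕ∞) ≤ ⊤)
  show fderiv ℝ (fun y => fderiv ℝ f y (Pi.single l 1)) x (Pi.single i 1) =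
    fderiv ℝ (fun y => fderiv ℝ f y (Pi.single i 1)) x (Pi.single l 1)
  rw [h1, h1]
  exact hs _ _

theorem pd_sum3 (m : Fin 3) (F : Fin 3 → R3 → ℝ) (hF : ∀ i, ContDiff ℝ (⊤ : ℕ∞) (F i)) (y : R3) :
    pd m (fun y => ∑ i, F i y) y = ∑ i, pd m (F i) y := by
  unfold pd
  have hs : HasFDerivAt (fun y => ∑ i, F i y) (∑ i, fderiv ℝ (F i) y) y :=
    HasFDerivAt.fun_sum (fun i _ => (((hF i).differentiable (by simp)) y).hasFDerivAt)
  rw [hs.fderiv, sum_apply]

theorem lap_pd (f : R3 → ℝ) (hf : ContDiff ℝ (⊤ : ℕ∞) f) (m : Fin 3) (y : R3) :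
    lap (pd m f) y = pd m (lap f) y := by
  have h : pd m (lap f) y = ∑ i, pd m (pd i (pd i f)) y := by
    have := pd_sum3 m (fun i => pd i (pd i f)) (fun i => pd_smooth i _ (pd_smooth i f hf)) y
    exact this
  rw [h]
  unfold lap
  apply Finset.sum_congr rfl
  intro i _
  rw [pd_comm f hf i m, pd_comm (pd i f) (pd_smooth i f hf) i m]

/-- far from the origin the derivatives of `ph` are harmonic -/
theorem lap_pd_ph (hPHA : ST_PHA) (hPHB : ST_PHB) (hPHC : ST_PHC) (b : ℝ) (hb : 0 < b)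
    (m : Fin 3) (y : R3) (hy : b ≤ nr y) : lap (pd m (ph b)) y = 0 := by
  have h1 := (hPHA b hb).1
  rw [lap_pd (ph b) h1 m y]
  have h2 : lap (ph b) = fun y => -et b y := by
    funext y
    exact (hPHB b hb).1 y
  rw [h2]
  have h3 := hPHC.2.2.2 b hb
  refine pd_zero b m _ h3.1.neg ?_ y hy
  intro z hz
  rw [h3.2.2.1 z hz, neg_zero]

/-- the coefficients of the far field -/
noncomputable def cf {n M : ℕ} (d : ℝ) (X : Fin M → R3) (Z : Fin M → ℝ) (x : Cf n) (i : Fin M) :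
    Fin n ⊕ Fin M → ℝ :=
  Sum.elim (fun l => if nr (x l - X i) < 3 / 2 * d then 0 else -1)
    (fun j => if j = i then 0 else Z j)

/-- the far field -/
noncomputable def hh {n M : ℕ} (d : ℝ) (X : Fin M → R3) (Z : Fin M → ℝ) (x : Cf n) (i : Fin M)
    (m : Fin 3) (w : R3) : ℝ :=
  comb (pd m (ph (d / 8))) (cf d X Z x i) (Sum.elim x X) w

theorem hh_eq_farE (hPHB : ST_PHB) {n M : ℕ} (d : ℝ) (hd : 0 < d) (X : Fin M → R3)
    (Z : Fin M → ℝ) (x : Cf n) (hX : Sep X d) (i : Fin M) (m : Fin 3) (y : R3)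
    (hy : nr (y - X i) ≤ 5 / 4 * d) : hh d X Z x i m y = farE d X Z x i m y := by
  have hB := (hPHB (d / 8) (by positivity)).2.2.2
  unfold hh comb cf farE
  rw [Fintype.sum_sum_type]
  simp only [Sum.elim_inl, Sum.elim_inr]
  rw [sub_eq_add_neg, ← Finset.sum_neg_distrib]
  congr 1
  · apply Finset.sum_congr rfl
    intro l _
    split_ifs with h
    · simp
    · have h1 := nr_tri (x l) y (X i)
      have h2 : d / 8 ≤ nr (y - x l) := by
        rw [nr_comm y (x l)]
        linarith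
      rw [hB m (y - x l) h2]
      simp only [Pi.sub_apply]
      ring
  · apply Finset.sum_congr rfl
    intro j _
    split_ifs with h
    · simp
    · have h1 := nr_tri (X j) y (X i)
      have h3 := hX j i h
      have h2 : d / 8 ≤ nr (y - X j) := by
        rw [nr_comm y (X j)]
        linarith
      rw [hB m (y - X j) h2]
      simp only [Pi.sub_apply]
      ring

theorem hh_harm (hPHA : ST_PHA) (hPHB : ST_PHB) (hPHC : ST_PHC) {n M : ℕ} (d : ℝ) (hd : 0 < d)
    (X : Fin M → R3) (Z : Fin M → ℝ) (x : Cf n) (hX : Sep X d) (i : Fin M) (m : Fin 3) (y : R3)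
    (hy : nr (y - X i) ≤ 5 / 4 * d) : lap (hh d X Z x i m) y = 0 := by
  have hs := pd_smooth m _ (hPHA (d / 8) (by positivity)).1
  have h0 : hh d X Z x i m = comb (pd m (ph (d / 8))) (cf d X Z x i) (Sum.elim x X) := rfl
  rw [h0, comb_lap _ _ _ hs]
  unfold comb cf
  apply Finset.sum_eq_zero
  intro k _
  rcases k with l | j
  · simp only [Sum.elim_inl]
    split_ifs with h
    · simp
    · have h1 := nr_tri (x l) y (X i)
      have h2 : d / 8 ≤ nr (y - x l) := by
        rw [nr_comm y (x l)]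
        linarith
      rw [lap_pd_ph hPHA hPHB hPHC (d / 8) (by positivity) m _ h2, mul_zero]
  · simp only [Sum.elim_inr]
    split_ifs with h
    · simp
    · have h1 := nr_tri (X j) y (X i)
      have h3 := hX j i h
      have h2 : d / 8 ≤ nr (y - X j) := by
        rw [nr_comm y (X j)]
        linarith
      rw [lap_pd_ph hPHA hPHB hPHC (d / 8) (by positivity) m _ h2, mul_zero]

theorem Pt_eq {n M : ℕ} (b : ℝ) (X : Fin M → R3) (Z : Fin M → ℝ) (x : Cf n) :
    Pt b X Z x = comb (ph b) (Sum.elim (fun _ => 1) (fun j => -Z j)) (Sum.elim x X) := by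
  funext w
  unfold Pt comb
  rw [Fintype.sum_sum_type]
  simp only [Sum.elim_inl, Sum.elim_inr, one_mul]
  rw [sub_eq_add_neg, ← Finset.sum_neg_distrib]
  congr 1
  apply Finset.sum_congr rfl
  intro j _
  ring

theorem hh_bound (hPHA : ST_PHA) (hPHB : ST_PHB) {n M : ℕ} (z d : ℝ) (hd : 0 < d)
    (X : Fin M → R3) (Z : Fin M → ℝ) (x : Cf n) (hZ0 : ∀ j, 0 ≤ Z j) (hZ : ∀ j, Z j ≤ z)
    (i : Fin M) (m : Fin 3) (w : R3) :
    |hh d X Z x i m w| ≤ |pd m (Pt (d / 8) X Z x) w| +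
      (cnt X (3 / 2 * d) x i + z) * (4 / (d / 8) ^ 2) := by
  have hb : 0 < d / 8 := by positivity
  have hB := (hPHB (d / 8) hb).2.1
  have hP : pd m (Pt (d / 8) X Z x) w = comb (pd m (ph (d / 8)))
      (Sum.elim (fun _ => 1) (fun j => -Z j)) (Sum.elim x X) w := by
    rw [Pt_eq, comb_pd _ _ _ (hPHA (d / 8) hb).1]
  have h1 : hh d X Z x i m w + pd m (Pt (d / 8) X Z x) w =
      (∑ l, (if nr (x l - X i) < 3 / 2 * d then 1 else 0) * pd m (ph (d / 8)) (w - x l)) -
        Z i * pd m (ph (d / 8)) (w - X i) := by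
    rw [hP]
    unfold hh comb cf
    rw [← Finset.sum_add_distrib, Fintype.sum_sum_type]
    simp only [Sum.elim_inl, Sum.elim_inr]
    rw [sub_eq_add_neg]
    congr 1
    · apply Finset.sum_congr rfl
      intro l _
      split_ifs <;> ring
    · rw [Finset.sum_eq_single i]
      · rw [if_pos rfl]; ring
      · intro j _ hj
        rw [if_neg hj]; ring
      · intro h
        exact absurd (Finset.mem_univ i) h
  have h2 : |(∑ l, (if nr (x l - X i) < 3 / 2 * d then 1 else 0) *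
      pd m (ph (d / 8)) (w - x l))| ≤ cnt X (3 / 2 * d) x i * (4 / (d / 8) ^ 2) := by
    unfold cnt
    rw [Finset.sum_mul]
    refine (Finset.abs_sum_le_sum_abs _ _).trans ?_
    apply Finset.sum_le_sum
    intro l _
    rw [abs_mul]
    split_ifs
    · rw [abs_one, one_mul, one_mul]
      exact hB m _
    · simp
  have h3 : |Z i * pd m (ph (d / 8)) (w - X i)| ≤ z * (4 / (d / 8) ^ 2) := by
    rw [abs_mul, abs_of_nonneg (hZ0 i)]
    exact mul_le_mul (hZ i) (hB m _) (abs_nonneg _) ((hZ0 i).trans (hZ i))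
  have h4 : hh d X Z x i m w = -pd m (Pt (d / 8) X Z x) w +
      ((∑ l, (if nr (x l - X i) < 3 / 2 * d then 1 else 0) * pd m (ph (d / 8)) (w - x l)) -
        Z i * pd m (ph (d / 8)) (w - X i)) := by
    rw [← h1]; ring
  rw [h4]
  refine (abs_add_le _ _).trans ?_
  rw [abs_neg]
  have h5 := abs_sub (∑ l, (if nr (x l - X i) < 3 / 2 * d then 1 else 0) *
    pd m (ph (d / 8)) (w - x l)) (Z i * pd m (ph (d / 8)) (w - X i))
  linarith

/-- the energy of the smeared field in the ball of radius `5 d / 4` -/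
noncomputable def Di {n M : ℕ} (d : ℝ) (X : Fin M → R3) (Z : Fin M → ℝ) (x : Cf n) (i : Fin M) :
    ℝ := ∫ w in {w : R3 | nr (w - X i) ≤ 5 / 4 * d}, ∑ m, pd m (Pt (d / 8) X Z x) w ^ 2

theorem Di_nonneg {n M : ℕ} (d : ℝ) (X : Fin M → R3) (Z : Fin M → ℝ) (x : Cf n) (i : Fin M) :
    0 ≤ Di d X Z x i :=
  integral_nonneg (fun _ => Finset.sum_nonneg (fun _ _ => sq_nonneg _))

theorem ball_meas (X : R3) (r : ℝ) : MeasurableSet {w : R3 | nr (w - X) ≤ r} :=
  (isClosed_le (nr_cont.comp (continuous_id.sub continuous_const)) continuous_const).measurableSet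

theorem Di_sum (hDEX : ST_DEX) (hPHC : ST_PHC) {n M : ℕ} (d : ℝ) (hd : 0 < d) (X : Fin M → R3)
    (Z : Fin M → ℝ) (x : Cf n) (hX : Sep X d) :
    ∑ i, Di d X Z x i ≤ kap * Dn (d / 8) X Z x := by
  have hI := (hDEX (d / 8) n M X Z x (by positivity)).1
  have hk : kap * Dn (d / 8) X Z x = ∫ w, ∑ i, pd i (Pt (d / 8) X Z x) w ^ 2 := by
    unfold Dn
    rw [← mul_assoc, mul_one_div_cancel hPHC.2.1.ne', one_mul]
  rw [hk]
  unfold Di
  have hdis : Pairwise (Function.onFun Disjoint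
      (fun i : Fin M => {w : R3 | nr (w - X i) ≤ 5 / 4 * d})) := by
    intro i j hij
    rw [Function.onFun, Set.disjoint_left]
    intro w hi hj
    change nr (w - X i) ≤ 5 / 4 * d at hi
    change nr (w - X j) ≤ 5 / 4 * d at hj
    have h1 := nr_tri (X i) w (X j)
    have h2 := hX i j hij
    rw [nr_comm (X i) w] at h1
    linarith
  rw [← integral_iUnion_fintype (fun i => ball_meas (X i) _) hdis (fun i => hI.integrableOn)]
  exact setIntegral_le_integral hI
    (Eventually.of_forall (fun w => Finset.sum_nonneg (fun m _ => sq_nonneg _)))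

theorem et_int (hPHC : ST_PHC) (a : ℝ) (ha : 0 < a) (y : R3) :
    Integrable (fun w => et a (w - y)) ∧ ∫ w, et a (w - y) = kap := by
  have h1 := (hPHC.2.2.2 a ha).2.2.2.2.2
  have h2 : Integrable (et a) := by
    by_contra h
    have h3 := integral_undef h
    have h4 : kap = 0 := by rw [← h1]; exact h3
    exact hPHC.2.1.ne' h4
  refine ⟨h2.comp_sub_right y, ?_⟩
  rw [← h1]
  exact integral_sub_right_eq_self (fun w => et a w) y

theorem am (p l : ℝ) (hl : 0 < l) : |p| ≤ l / 2 * p ^ 2 + 1 / (2 * l) := by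
  have h1 : 0 ≤ (l * |p| - 1) ^ 2 / (2 * l) := by positivity
  have h2 : (l * |p| - 1) ^ 2 / (2 * l) = l / 2 * |p| ^ 2 + 1 / (2 * l) - |p| := by
    field_simp
    ring
  rw [h2, sq_abs] at h1
  linarith

theorem far_le (hMVP : ST_MVP) (hPHA : ST_PHA) (hPHB : ST_PHB) (hPHC : ST_PHC) (hDEX : ST_DEX)
    {n M : ℕ} (z d C0 l : ℝ) (hl : 0 < l) (hC0 : 0 < C0)
    (hC : ∀ (a : ℝ) (y : R3), 0 < a → et a y ≤ C0 / a ^ 3) (hz : 0 ≤ z) (hd : 0 < d)
    (X : Fin M → R3) (Z : Fin M → ℝ) (x : Cf n) (hX : Sep X d) (hZ0 : ∀ j, 0 ≤ Z j)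
    (hZ : ∀ j, Z j ≤ z) (i : Fin M) (m : Fin 3) (y : R3) (hy : nr (y - X i) ≤ d) :
    kap * |farE d X Z x i m y| ≤ l / 2 * (C0 / (d / 4) ^ 3) * Di d X Z x i +
      (1 / (2 * l) + (cnt X (3 / 2 * d) x i + z) * (4 / (d / 8) ^ 2)) * kap := by
  have ha : 0 < d / 4 := by positivity
  have hsm : ContDiff ℝ (⊤ : ℕ∞) (hh d X Z x i m) :=
    comb_smooth _ _ _ (pd_smooth m _ (hPHA (d / 8) (by positivity)).1)
  have hM := (hMVP (hh d X Z x i m) y (d / 4) hsm ha).1 (by
    intro w hw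
    apply hh_harm hPHA hPHB hPHC d hd X Z x hX i m w
    have := nr_tri w y (X i)
    linarith)
  rw [hh_eq_farE hPHB d hd X Z x hX i m y (by linarith)] at hM
  have hcnt : 0 ≤ cnt X (3 / 2 * d) x i := by
    unfold cnt
    apply Finset.sum_nonneg
    intro k _
    split_ifs <;> norm_num
  set S : ℝ := (cnt X (3 / 2 * d) x i + z) * (4 / (d / 8) ^ 2) with hS
  have hS0 : 0 ≤ S := by
    rw [hS]
    positivity
  have hI := (hDEX (d / 8) n M X Z x (by positivity)).1
  have hE := et_int hPHC (d / 4) ha y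
  have hetp := (hPHC.2.2.2 (d / 4) ha).2
  have hG : Integrable (Set.indicator {w : R3 | nr (w - X i) ≤ 5 / 4 * d}
      (fun w => ∑ m, pd m (Pt (d / 8) X Z x) w ^ 2)) := hI.indicator (ball_meas (X i) _)
  have hR : Integrable (fun w => l / 2 * (C0 / (d / 4) ^ 3) *
      Set.indicator {w : R3 | nr (w - X i) ≤ 5 / 4 * d}
        (fun w => ∑ m, pd m (Pt (d / 8) X Z x) w ^ 2) w +
      (1 / (2 * l) + S) * et (d / 4) (w - y)) :=
    (hG.const_mul _).add (hE.1.const_mul _)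
  have hle : ∫ w, |hh d X Z x i m w * et (d / 4) (w - y)| ≤
      ∫ w, (l / 2 * (C0 / (d / 4) ^ 3) *
      Set.indicator {w : R3 | nr (w - X i) ≤ 5 / 4 * d}
        (fun w => ∑ m, pd m (Pt (d / 8) X Z x) w ^ 2) w +
      (1 / (2 * l) + S) * et (d / 4) (w - y)) := by
    apply integral_mono_of_nonneg (Eventually.of_forall (fun w => abs_nonneg _)) hR
    apply Eventually.of_forall
    intro w
    change |hh d X Z x i m w * et (d / 4) (w - y)| ≤ _
    have he0 := hetp.1 (w - y)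
    rw [abs_mul, abs_of_nonneg he0]
    have h1 := hh_bound hPHA hPHB z d hd X Z x hZ0 hZ i m w
    have h2 := am (pd m (Pt (d / 8) X Z x) w) l hl
    have h3 : |hh d X Z x i m w| * et (d / 4) (w - y) ≤
        (l / 2 * pd m (Pt (d / 8) X Z x) w ^ 2 + 1 / (2 * l) + S) * et (d / 4) (w - y) :=
      mul_le_mul_of_nonneg_right (by linarith) he0
    have h4 : pd m (Pt (d / 8) X Z x) w ^ 2 * et (d / 4) (w - y) ≤ C0 / (d / 4) ^ 3 *
        Set.indicator {w : R3 | nr (w - X i) ≤ 5 / 4 * d}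
        (fun w => ∑ m, pd m (Pt (d / 8) X Z x) w ^ 2) w := by
      have hC1 : 0 < C0 / (d / 4) ^ 3 := by positivity
      rcases le_or_gt (d / 4) (nr (w - y)) with h | h
      · rw [hetp.2.1 _ h, mul_zero]
        apply mul_nonneg hC1.le
        apply Set.indicator_nonneg
        intro v _
        exact Finset.sum_nonneg (fun m _ => sq_nonneg _)
      · have hw : w ∈ {w : R3 | nr (w - X i) ≤ 5 / 4 * d} := by
          change nr (w - X i) ≤ 5 / 4 * d
          have := nr_tri w y (X i)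
          linarith
        rw [Set.indicator_of_mem hw]
        have h5 : pd m (Pt (d / 8) X Z x) w ^ 2 ≤ ∑ m, pd m (Pt (d / 8) X Z x) w ^ 2 :=
          Finset.single_le_sum (f := fun m => pd m (Pt (d / 8) X Z x) w ^ 2)
            (fun m _ => sq_nonneg _) (Finset.mem_univ m)
        have h6 := hC (d / 4) (w - y) ha
        calc pd m (Pt (d / 8) X Z x) w ^ 2 * et (d / 4) (w - y)
            ≤ (∑ m, pd m (Pt (d / 8) X Z x) w ^ 2) * (C0 / (d / 4) ^ 3) :=
              mul_le_mul h5 h6 he0 (Finset.sum_nonneg (fun m _ => sq_nonneg _))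
          _ = _ := mul_comm _ _
    have h7 := mul_le_mul_of_nonneg_left h4 (show 0 ≤ l / 2 by positivity)
    calc |hh d X Z x i m w| * et (d / 4) (w - y)
        ≤ (l / 2 * pd m (Pt (d / 8) X Z x) w ^ 2 + 1 / (2 * l) + S) * et (d / 4) (w - y) := h3
      _ = l / 2 * (pd m (Pt (d / 8) X Z x) w ^ 2 * et (d / 4) (w - y)) +
          (1 / (2 * l) + S) * et (d / 4) (w - y) := by ring
      _ ≤ l / 2 * (C0 / (d / 4) ^ 3 *
          Set.indicator {w : R3 | nr (w - X i) ≤ 5 / 4 * d}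
          (fun w => ∑ m, pd m (Pt (d / 8) X Z x) w ^ 2) w) +
          (1 / (2 * l) + S) * et (d / 4) (w - y) := by linarith
      _ = _ := by ring
  have hR2 : ∫ w, (l / 2 * (C0 / (d / 4) ^ 3) *
      Set.indicator {w : R3 | nr (w - X i) ≤ 5 / 4 * d}
        (fun w => ∑ m, pd m (Pt (d / 8) X Z x) w ^ 2) w +
      (1 / (2 * l) + S) * et (d / 4) (w - y)) =
      l / 2 * (C0 / (d / 4) ^ 3) * Di d X Z x i + (1 / (2 * l) + S) * kap := by
    rw [integral_add (hG.const_mul _) (hE.1.const_mul _), integral_const_mul, integral_const_mul,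
      hE.2, integral_indicator (ball_meas (X i) _)]
    rfl
  calc kap * |farE d X Z x i m y| = |kap * farE d X Z x i m y| := by
        rw [abs_mul, abs_of_pos hPHC.2.1]
    _ = |∫ w, hh d X Z x i m w * et (d / 4) (w - y)| := by rw [hM]
    _ ≤ ∫ w, |hh d X Z x i m w * et (d / 4) (w - y)| := abs_integral_le_integral_abs
    _ ≤ _ := hle
    _ = _ := hR2

end FF76

open FF76 in
/-- row FF -/
theorem FF (hMVP : ST_MVP) (hPHA : ST_PHA) (hPHB : ST_PHB) (hPHC : ST_PHC) (hNB : ST_NB)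
    (hDEX : ST_DEX) : ST_FF := by
  intro z d hz hd
  obtain ⟨CN, hCN, hN⟩ := hNB z d hz hd
  obtain ⟨C0, hC0, hC⟩ := hPHC.2.2.1
  have hk := hPHC.2.1
  set K1 : ℝ := (1 / 2 * (C0 / (d / 4) ^ 3) + 1 / 2 * kap) / kap with hK1
  have hK10 : 0 < K1 := by
    rw [hK1]
    positivity
  set Q : ℝ := 4 / (d / 8) ^ 2 with hQ
  have hQ0 : 0 < Q := by
    rw [hQ]
    positivity
  refine ⟨2 * K1 ^ 2 * (kap + 1) + 4 * Q ^ 2 * (CN + z ^ 2), by positivity, ?_⟩
  intro n M X Z x hX hZ0 hZ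
  have hD0 : ∀ i, 0 ≤ Di d X Z x i := Di_nonneg d X Z x
  have hDs := Di_sum hDEX hPHC d hd X Z x hX
  have hNs := hN n M X Z x hX hZ0 hZ
  have hDn : 0 ≤ Dn (d / 8) X Z x := by
    unfold Dn
    apply mul_nonneg (by positivity)
    exact integral_nonneg (fun _ => Finset.sum_nonneg (fun _ _ => sq_nonneg _))
  refine ⟨fun i => K1 * Real.sqrt (Di d X Z x i + 1) + (cnt X (3 / 2 * d) x i + z) * Q, ?_, ?_⟩
  · intro i m y hy
    have hsq : 0 < Real.sqrt (Di d X Z x i + 1) := Real.sqrt_pos.2 (by linarith [hD0 i])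
    have hss : Real.sqrt (Di d X Z x i + 1) ^ 2 = Di d X Z x i + 1 :=
      Real.sq_sqrt (by linarith [hD0 i])
    have h1 := far_le hMVP hPHA hPHB hPHC hDEX z d C0 (1 / Real.sqrt (Di d X Z x i + 1))
      (by positivity) hC0 hC hz hd X Z x hX hZ0 hZ i m y hy
    set R := Real.sqrt (Di d X Z x i + 1) with hR
    have h2 : 1 / R / 2 * (C0 / (d / 4) ^ 3) * Di d X Z x i ≤ 1 / 2 * (C0 / (d / 4) ^ 3) * R := by
      have h3 : 1 / R / 2 * (C0 / (d / 4) ^ 3) * Di d X Z x i ≤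
          1 / R / 2 * (C0 / (d / 4) ^ 3) * R ^ 2 := by
        apply mul_le_mul_of_nonneg_left _ (by positivity)
        rw [hss]; linarith
      refine h3.trans (le_of_eq ?_)
      field_simp
    have h4 : 1 / (2 * (1 / R)) = 1 / 2 * R := by
      field_simp
    rw [h4] at h1
    have h5 : kap * |farE d X Z x i m y| ≤ kap * (K1 * R + (cnt X (3 / 2 * d) x i + z) * Q) := by
      refine h1.trans ?_
      have h6 : kap * (K1 * R + (cnt X (3 / 2 * d) x i + z) * Q) =
          1 / 2 * (C0 / (d / 4) ^ 3) * R + (1 / 2 * R + (cnt X (3 / 2 * d) x i + z) * Q) * kap := by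
        rw [hK1]
        field_simp
        ring
      rw [h6]
      linarith
    exact le_of_mul_le_mul_left h5 hk
  · have h1 : ∀ i, (K1 * Real.sqrt (Di d X Z x i + 1) + (cnt X (3 / 2 * d) x i + z) * Q) ^ 2 ≤
        2 * K1 ^ 2 * (Di d X Z x i + 1) +
          4 * Q ^ 2 * (cnt X (3 / 2 * d) x i ^ 2 + z ^ 2) := by
      intro i
      have hss : Real.sqrt (Di d X Z x i + 1) ^ 2 = Di d X Z x i + 1 :=
        Real.sq_sqrt (by linarith [hD0 i])
      set R := Real.sqrt (Di d X Z x i + 1) with hR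
      rw [← hss]
      have h2 : 0 ≤ (K1 * R - (cnt X (3 / 2 * d) x i + z) * Q) ^ 2 := sq_nonneg _
      have h3 : 0 ≤ Q ^ 2 * (cnt X (3 / 2 * d) x i - z) ^ 2 := by positivity
      nlinarith [h2, h3]
    refine (Finset.sum_le_sum (fun i _ => h1 i)).trans ?_
    rw [Finset.sum_add_distrib, ← Finset.mul_sum, ← Finset.mul_sum, Finset.sum_add_distrib,
      Finset.sum_add_distrib]
    simp only [Finset.sum_const, Finset.card_univ, Fintype.card_fin, nsmul_eq_mul, mul_one]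
    have h4 : 2 * K1 ^ 2 * (∑ i, Di d X Z x i + (M : ℝ)) ≤
        2 * K1 ^ 2 * ((kap + 1) * (M + Dn (d / 8) X Z x)) := by
      apply mul_le_mul_of_nonneg_left _ (by positivity)
      have h5 : (0 : ℝ) ≤ M := Nat.cast_nonneg M
      nlinarith [mul_nonneg hk.le h5]
    have h6 : 4 * Q ^ 2 * (∑ i, cnt X (3 / 2 * d) x i ^ 2 + (M : ℝ) * z ^ 2) ≤
        4 * Q ^ 2 * ((CN + z ^ 2) * (M + Dn (d / 8) X Z x)) := by
      apply mul_le_mul_of_nonneg_left _ (by positivity)
      have h5 : (0 : ℝ) ≤ M := Nat.cast_nonneg M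
      nlinarith [mul_nonneg (sq_nonneg z) hDn]
    calc _ ≤ 2 * K1 ^ 2 * ((kap + 1) * (M + Dn (d / 8) X Z x)) +
          4 * Q ^ 2 * ((CN + z ^ 2) * (M + Dn (d / 8) X Z x)) := add_le_add h4 h6
      _ = _ := by ring

end Pool.Agent.Helper76.LN
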